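import Mathlib
import Pool.Agent.N662.FP.Stm

/-!
# FL/GEO+LAY: geometric decay of log-concave functions, mean of the positive part (for helper662)
-/

set_option autoImplicit false
open MeasureTheory ProbabilityTheory Filter Set
open scoped ENNReal Pointwise Topology

namespace Pool.Agent.N402.FL

open Pool.Agent.N662.FP

theorem t_GEO : S_GEO := by
  intro G hG0 hGa hG a L hL ha haL
  have key : ∀ k : ℕ, G (a + L + k * L) ≤ 1 / 4 * G (a + k * L) := by
    intro k
    induction k with
    | zero =>
      simp only [Nat.cast_zero, zero_mul, add_zero]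
      linarith
    | succ k ih =>
      have h1 := hG (a + L + ((k + 1 : ℕ) : ℝ) * L) (a + k * L)
      have h2 : (a + L + ((k + 1 : ℕ) : ℝ) * L + (a + k * L)) / 2 = a + L + k * L := by
        push_cast
        ring
      rw [h2] at h1
      have h3 : a + ((k + 1 : ℕ) : ℝ) * L = a + L + k * L := by
        push_cast
        ring
      rw [h3]
      set z := G (a + L + ((k + 1 : ℕ) : ℝ) * L) with hz
      set y := G (a + L + k * L) with hy
      set x := G (a + k * L) with hx
      have hx0 : 0 ≤ x := hG0 _
      have hy0 : 0 ≤ y := hG0 _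
      have hz0 : 0 ≤ z := hG0 _
      have hzy : z ≤ y := by
        apply hGa
        push_cast
        nlinarith
      rcases hx0.eq_or_lt with h | h
      · have : y = 0 := by linarith
        linarith
      · have h4 : z * x ≤ (1 / 4 * y) * x := by nlinarith
        exact le_of_mul_le_mul_right h4 h
  intro k
  induction k with
  | zero => simpa using haL
  | succ k ih =>
    have h3 : a + ((k + 1 : ℕ) : ℝ) * L = a + L + k * L := by
      push_cast
      ring
    have h4 := key (k + 1)
    rw [h3] at h4
    calc G (a + L + ((k + 1 : ℕ) : ℝ) * L) ≤ 1 / 4 * G (a + L + k * L) := h4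
      _ ≤ 1 / 4 * (1 / 8 * (1 / 4) ^ k) := by linarith
      _ = 1 / 8 * (1 / 4) ^ (k + 1) := by ring

theorem t_LAY : S_LAY := by
  intro Ω _ _ T hT hTi b L hL h
  have hmeas : ∀ k : ℕ, MeasurableSet {ω | b + k * L ≤ T ω} := fun k =>
    measurableSet_le measurable_const hT
  have hpt : ∀ ω, ENNReal.ofReal (max (T ω - b) 0) ≤
      ∑' k : ℕ, ({ω | b + k * L ≤ T ω} : Set Ω).indicator (fun _ => ENNReal.ofReal L) ω := by
    intro ω
    rcases le_or_gt (T ω) b with hb | hb
    · rw [max_eq_right (by linarith), ENNReal.ofReal_zero]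
      exact zero_le
    · set j := ⌊(T ω - b) / L⌋₊ with hj
      have hnn : 0 ≤ (T ω - b) / L := div_nonneg (by linarith) hL.le
      have h1 : (T ω - b) / L < j + 1 := Nat.lt_floor_add_one _
      have h2 : (j : ℝ) ≤ (T ω - b) / L := Nat.floor_le hnn
      rw [div_lt_iff₀ hL] at h1
      rw [le_div_iff₀ hL] at h2
      have h3 : ENNReal.ofReal (max (T ω - b) 0) ≤ ∑ k ∈ Finset.range (j + 1),
          ({ω | b + k * L ≤ T ω} : Set Ω).indicator (fun _ => ENNReal.ofReal L) ω := by
        have h4 : ∀ k ∈ Finset.range (j + 1),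
            ({ω | b + k * L ≤ T ω} : Set Ω).indicator (fun _ => ENNReal.ofReal L) ω =
              ENNReal.ofReal L := by
          intro k hk
          have hkj : (k : ℝ) ≤ j := by
            exact_mod_cast Nat.lt_succ_iff.1 (Finset.mem_range.1 hk)
          refine indicator_of_mem ?_ _
          show b + k * L ≤ T ω
          nlinarith
        rw [Finset.sum_congr rfl h4, Finset.sum_const, Finset.card_range, nsmul_eq_mul,
          ← ENNReal.ofReal_natCast, ← ENNReal.ofReal_mul (Nat.cast_nonneg _)]
        apply ENNReal.ofReal_le_ofReal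
        rw [max_eq_left (by linarith)]
        push_cast
        exact h1.le
      exact h3.trans (ENNReal.sum_le_tsum _)
  have hsum : HasSum (fun k : ℕ => L * (1 / 8 * (1 / 4 : ℝ) ^ k)) (L / 6) := by
    have h5 := (hasSum_geometric_of_lt_one (r := (1 / 4 : ℝ)) (by norm_num) (by norm_num)).mul_left
      (L * (1 / 8))
    have h6 : L * (1 / 8) * (1 - 1 / 4 : ℝ)⁻¹ = L / 6 := by
      norm_num
      ring
    rw [h6] at h5
    have h7 : (fun k : ℕ => L * (1 / 8 * (1 / 4 : ℝ) ^ k)) =
        fun k : ℕ => L * (1 / 8) * (1 / 4 : ℝ) ^ k := by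
      funext k
      ring
    rw [h7]
    exact h5
  have hlint : ∫⁻ ω, ENNReal.ofReal (max (T ω - b) 0) ∂(volume : Measure Ω) ≤
      ENNReal.ofReal (L / 6) := by
    calc ∫⁻ ω, ENNReal.ofReal (max (T ω - b) 0) ∂(volume : Measure Ω)
        ≤ ∫⁻ ω, ∑' k : ℕ, ({ω | b + k * L ≤ T ω} : Set Ω).indicator
            (fun _ => ENNReal.ofReal L) ω ∂(volume : Measure Ω) := lintegral_mono hpt
      _ = ∑' k : ℕ, ∫⁻ ω, ({ω | b + k * L ≤ T ω} : Set Ω).indicator
            (fun _ => ENNReal.ofReal L) ω ∂(volume : Measure Ω) :=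
          lintegral_tsum fun k => (measurable_const.indicator (hmeas k)).aemeasurable
      _ = ∑' k : ℕ, ENNReal.ofReal L * (volume : Measure Ω) {ω | b + k * L ≤ T ω} := by
          refine tsum_congr fun k => ?_
          rw [lintegral_indicator_const (hmeas k)]
      _ ≤ ∑' k : ℕ, ENNReal.ofReal (L * (1 / 8 * (1 / 4 : ℝ) ^ k)) := by
          refine ENNReal.tsum_le_tsum fun k => ?_
          rw [ENNReal.ofReal_mul hL.le]
          gcongr
          have := h k
          rw [Measure.real] at this
          exact (ENNReal.le_ofReal_iff_toReal_le (measure_ne_top _ _) (by positivity)).2 this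
      _ = ENNReal.ofReal (L / 6) := by
          rw [← hsum.tsum_eq]
          exact (ENNReal.ofReal_tsum_of_nonneg (fun k => by positivity) hsum.summable).symm
  have hint : Integrable (fun ω => max (T ω - b) 0) (volume : Measure Ω) :=
    (hTi.sub (integrable_const b)).pos_part
  rw [integral_eq_lintegral_of_nonneg_ae (f := fun ω => max (T ω - b) 0)
    (Eventually.of_forall fun ω => le_max_right _ _) hint.aestronglyMeasurable]
  exact ENNReal.toReal_le_of_le_ofReal (by positivity) hlint

end Pool.Agent.N402.FL
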